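import Pool.Agent.N303.LS.Stm

/-!
# LS/YH: the inequalities of Hölder and Young (helper933)
-/

set_option autoImplicit false

namespace Pool.Agent.N933.LS

open MeasureTheory Pool.Agent.N303.LS
open scoped ENNReal

/-- the weight is continuous -/
theorem cont_W {d : ℕ} (M : ℕ) : Continuous (W M : E d → ℝ) := by
  unfold W
  refine Continuous.inv₀ (by fun_prop) ?_
  intro x
  positivity

/-- the weight is integrable -/
theorem fin_W {d M : ℕ} (h : d < 2 * M) : ∫⁻ x : E d, ENNReal.ofReal (W M x) < ⊤ := by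
  have hI : Integrable (fun x : E d => (1 + ‖x‖ ^ 2) ^ (-((2 * M : ℕ) : ℝ) / 2)) := by
    apply integrable_rpow_neg_one_add_norm_sq
    rw [finrank_euclideanSpace, Fintype.card_fin]
    exact_mod_cast h
  have e : (fun x : E d => (1 + ‖x‖ ^ 2) ^ (-((2 * M : ℕ) : ℝ) / 2)) = fun x => W M x := by
    funext x
    have h1 : (-((2 * M : ℕ) : ℝ) / 2) = -(M : ℝ) := by push_cast; ring
    rw [h1, Real.rpow_neg (by positivity), Real.rpow_natCast]
    rfl
  rw [e] at hI
  exact hI.lintegral_lt_top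

theorem t_yh : Pool.Agent.N303.LS.S_YH := by
  intro d M hd p hp
  set T : ℝ≥0∞ := ∫⁻ x : E d, ENNReal.ofReal (W M x) with hT
  have hTf : T < ⊤ := fin_W hd
  refine ⟨(T ^ (p / 2 - 1)).toReal + 1, by positivity, ?_⟩
  intro g
  have hCle : T ^ (p / 2 - 1) ≤ ENNReal.ofReal ((T ^ (p / 2 - 1)).toReal + 1) := by
    have h1 : T ^ (p / 2 - 1) ≠ ⊤ := by
      apply ENNReal.rpow_ne_top_of_nonneg _ hTf.ne
      linarith
    calc T ^ (p / 2 - 1) = ENNReal.ofReal ((T ^ (p / 2 - 1)).toReal) := (ENNReal.ofReal_toReal h1).symm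
      _ ≤ _ := ENNReal.ofReal_le_ofReal (by linarith)
  refine le_trans ?_ (mul_le_mul_left hCle _)
  rcases hp.eq_or_lt with hp2 | hp2
  · subst hp2
    simp
  -- the exponents
  set a : ℝ := p / 2 with ha
  have ha1 : 1 < a := by rw [ha]; linarith
  set b : ℝ := a / (a - 1) with hb
  have hab : a.HolderConjugate b := Real.HolderConjugate.conjExponent ha1
  have ha0 : 0 < a := by linarith
  have ham : 0 < a - 1 := by linarith
  have hb0 : 0 < b := by rw [hb]; positivity
  have hgc : Continuous (fun x : E d => ‖g x‖ₑ) := g.continuous.enorm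
  have hwm : Measurable (fun q : E d × E d => ENNReal.ofReal (W M (q.2 - q.1))) := by
    apply Measurable.ennreal_ofReal
    exact ((cont_W M).comp (by fun_prop)).measurable
  have hjoint : ∀ s : ℝ, Measurable (fun q : E d × E d => ‖g q.2‖ₑ ^ s * ENNReal.ofReal (W M (q.2 - q.1))) := by
    intro s
    refine Measurable.mul ?_ hwm
    exact (hgc.measurable.comp measurable_snd).pow_const s
  have hnm : Measurable (fun x : E d => nrg M g x) := by
    unfold nrg
    exact (hjoint 2).lintegral_prod_right'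
  -- pointwise bound
  have hpt : ∀ x : E d, nrg M g x ^ a ≤
      T ^ (a - 1) * ∫⁻ y : E d, ‖g y‖ₑ ^ p * ENNReal.ofReal (W M (y - x)) := by
    intro x
    have hw1 : ∀ y : E d, 0 < W M (y - x) := by
      intro y
      unfold W
      positivity
    have hwx : Measurable (fun y : E d => ENNReal.ofReal (W M (y - x))) := by
      apply Measurable.ennreal_ofReal
      exact ((cont_W M).comp (by fun_prop)).measurable
    have h1 := ENNReal.lintegral_mul_le_Lp_mul_Lq (volume : Measure (E d)) hab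
      (f := fun y => ‖g y‖ₑ ^ (2 : ℝ) * ENNReal.ofReal (W M (y - x)) ^ (1 / a))
      (g := fun y => ENNReal.ofReal (W M (y - x)) ^ (1 / b))
      (((hgc.measurable.pow_const 2).mul (hwx.pow_const _)).aemeasurable)
      ((hwx.pow_const _).aemeasurable)
    have e1 : ∫⁻ y : E d, ((fun y : E d => ‖g y‖ₑ ^ (2 : ℝ) * ENNReal.ofReal (W M (y - x)) ^ (1 / a)) *
        (fun y : E d => ENNReal.ofReal (W M (y - x)) ^ (1 / b)) : E d → ℝ≥0∞) y = nrg M g x := by
      unfold nrg
      refine lintegral_congr fun y => ?_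
      simp only [Pi.mul_apply]
      rw [mul_assoc, ← ENNReal.rpow_add _ _ (by simpa using hw1 y) ENNReal.ofReal_ne_top]
      have : 1 / a + 1 / b = 1 := by
        have := hab.inv_add_inv_eq_one
        simpa [one_div] using this
      rw [this, ENNReal.rpow_one]
    have e2 : ∀ y : E d, (‖g y‖ₑ ^ (2 : ℝ) * ENNReal.ofReal (W M (y - x)) ^ (1 / a)) ^ a =
        ‖g y‖ₑ ^ p * ENNReal.ofReal (W M (y - x)) := by
      intro y
      rw [ENNReal.mul_rpow_of_nonneg _ _ ha0.le, ← ENNReal.rpow_mul, ← ENNReal.rpow_mul]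
      congr 1
      · congr 1
        rw [ha]; ring
      · rw [one_div, inv_mul_cancel₀ ha0.ne', ENNReal.rpow_one]
    have e3 : ∀ y : E d, (ENNReal.ofReal (W M (y - x)) ^ (1 / b)) ^ b = ENNReal.ofReal (W M (y - x)) := by
      intro y
      rw [← ENNReal.rpow_mul, one_div, inv_mul_cancel₀ hb0.ne', ENNReal.rpow_one]
    rw [e1] at h1
    simp only [e2, e3] at h1
    rw [lintegral_sub_right_eq_self (fun y : E d => ENNReal.ofReal (W M y)) x, ← hT] at h1
    calc nrg M g x ^ a ≤ ((∫⁻ y : E d, ‖g y‖ₑ ^ p * ENNReal.ofReal (W M (y - x))) ^ (1 / a) *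
          T ^ (1 / b)) ^ a := ENNReal.rpow_le_rpow h1 ha0.le
      _ = T ^ (a - 1) * ∫⁻ y : E d, ‖g y‖ₑ ^ p * ENNReal.ofReal (W M (y - x)) := by
          rw [ENNReal.mul_rpow_of_nonneg _ _ ha0.le, ← ENNReal.rpow_mul, ← ENNReal.rpow_mul,
            mul_comm]
          congr 1
          · congr 1
            rw [hb]; field_simp
          · rw [one_div, inv_mul_cancel₀ ha0.ne', ENNReal.rpow_one]
  -- integrate
  have hint : ∫⁻ x : E d, nrg M g x ^ a ≤ T ^ a * ∫⁻ x : E d, ‖g x‖ₑ ^ p := by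
    calc ∫⁻ x : E d, nrg M g x ^ a ≤
        ∫⁻ x : E d, T ^ (a - 1) * ∫⁻ y : E d, ‖g y‖ₑ ^ p * ENNReal.ofReal (W M (y - x)) :=
          lintegral_mono hpt
      _ = T ^ (a - 1) * ∫⁻ x : E d, ∫⁻ y : E d, ‖g y‖ₑ ^ p * ENNReal.ofReal (W M (y - x)) := by
          rw [lintegral_const_mul _ (hjoint p).lintegral_prod_right']
      _ = T ^ (a - 1) * ∫⁻ y : E d, ∫⁻ x : E d, ‖g y‖ₑ ^ p * ENNReal.ofReal (W M (y - x)) := by
          rw [lintegral_lintegral_swap (hjoint p).aemeasurable]
      _ = T ^ (a - 1) * ∫⁻ y : E d, ‖g y‖ₑ ^ p * T := by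
          congr 1
          refine lintegral_congr fun y => ?_
          rw [lintegral_const_mul _ (by
            apply Measurable.ennreal_ofReal
            exact ((cont_W M).comp (by fun_prop)).measurable)]
          rw [lintegral_sub_left_eq_self (fun y : E d => ENNReal.ofReal (W M y)) y]
      _ = T ^ (a - 1) * ((∫⁻ y : E d, ‖g y‖ₑ ^ p) * T) := by
          rw [lintegral_mul_const _ (hgc.measurable.pow_const p)]
      _ = T ^ a * ∫⁻ x : E d, ‖g x‖ₑ ^ p := by
          have : T ^ a = T ^ (a - 1) * T := by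
            have h := ENNReal.rpow_add_of_nonneg (x := T) (a - 1) 1 ham.le zero_le_one
            rw [ENNReal.rpow_one] at h
            rw [← h]
            congr 1; ring
          rw [this]
          ring
  -- Hölder
  have h2 := ENNReal.lintegral_mul_le_Lp_mul_Lq (volume : Measure (E d)) hab
    (f := fun x => ‖g x‖ₑ ^ (2 : ℝ)) (g := fun x => nrg M g x ^ (a - 1))
    (hgc.measurable.pow_const 2).aemeasurable (hnm.pow_const _).aemeasurable
  have e4 : ∀ x : E d, (‖g x‖ₑ ^ (2 : ℝ)) ^ a = ‖g x‖ₑ ^ p := by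
    intro x
    rw [← ENNReal.rpow_mul]
    congr 1
    rw [ha]; ring
  have e5 : ∀ x : E d, (nrg M g x ^ (a - 1)) ^ b = nrg M g x ^ a := by
    intro x
    rw [← ENNReal.rpow_mul]
    congr 1
    rw [hb]; field_simp
  simp only [e4, e5] at h2
  set I : ℝ≥0∞ := ∫⁻ x : E d, ‖g x‖ₑ ^ p with hI
  calc ∫⁻ x : E d, ‖g x‖ₑ ^ (2 : ℝ) * nrg M g x ^ (a - 1)
      ≤ I ^ (1 / a) * (∫⁻ x : E d, nrg M g x ^ a) ^ (1 / b) := h2
    _ ≤ I ^ (1 / a) * (T ^ a * I) ^ (1 / b) := by
        gcongr
    _ = T ^ (a - 1) * I := by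
        rw [ENNReal.mul_rpow_of_nonneg _ _ (by positivity), ← ENNReal.rpow_mul]
        have e6 : a * (1 / b) = a - 1 := by rw [hb]; field_simp
        have e7 : I ^ (1 / a) * I ^ (1 / b) = I := by
          rw [← ENNReal.rpow_add_of_nonneg _ _ (by positivity) (by positivity)]
          have : 1 / a + 1 / b = 1 := by
            have := hab.inv_add_inv_eq_one
            simpa [one_div] using this
          rw [this, ENNReal.rpow_one]
        rw [e6]
        calc I ^ (1 / a) * (T ^ (a - 1) * I ^ (1 / b)) = T ^ (a - 1) * (I ^ (1 / a) * I ^ (1 / b)) := by ring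
          _ = _ := by rw [e7]

end Pool.Agent.N933.LS
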